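import Pool.Agent.H5.TT.Stm

set_option autoImplicit false

open MeasureTheory

namespace H39.TT

open H5.TT

theorem adm_exists (lam : ℝ) (hl : 0 ≤ lam) : ∃ σ, Adm lam σ := by
  obtain ⟨B, hB⟩ : ∃ B : Set R3, B = Metric.ball 0 1 := ⟨_, rfl⟩
  have hm : MeasurableSet B := by rw [hB]; exact measurableSet_ball
  have hfin : volume B ≠ ⊤ := by rw [hB]; exact measure_ball_lt_top.ne
  have hpos : 0 < volume.real B := by
    rw [measureReal_def]
    apply ENNReal.toReal_pos _ hfin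
    rw [hB]
    exact (Metric.measure_ball_pos volume 0 one_pos).ne'
  have hint : ∀ c : ℝ, Integrable (B.indicator (fun _ => c)) := fun c =>
    (integrable_indicator_iff hm).2 (integrableOn_const hfin)
  refine ⟨B.indicator (fun _ => lam / volume.real B), measurable_const.indicator hm, ?_,
    hint _, ?_, ?_⟩
  · intro x
    exact Set.indicator_nonneg (fun _ _ => div_nonneg hl hpos.le) x
  · have h : (fun x => B.indicator (fun _ => lam / volume.real B) x ^ (5 / 3 : ℝ)) =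
        B.indicator (fun _ => (lam / volume.real B) ^ (5 / 3 : ℝ)) := by
      funext x
      by_cases hx : x ∈ B
      · rw [Set.indicator_of_mem hx, Set.indicator_of_mem hx]
      · rw [Set.indicator_of_notMem hx, Set.indicator_of_notMem hx]
        exact Real.zero_rpow (by norm_num)
    rw [h]
    exact hint _
  · rw [integral_indicator hm, setIntegral_const, smul_eq_mul]
    field_simp

theorem t_INF (hSCA : S_SCA) (hBDD : S_BDD) : S_INF := by
  intro k z R hz lam l hlam hl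
  obtain ⟨T, hT⟩ : ∃ T : Set ℝ, T = {x | ∃ σ, Adm lam σ ∧
    x = l⁻¹ * kin σ + (- att z R 1 σ + 1 / 2 * dd σ σ + rep z R)} := ⟨_, rfl⟩
  have key : ∀ σ, Adm lam σ → Adm lam (fun x => (l ^ 3)⁻¹ * σ (l⁻¹ • x)) ∧
      tf z R l (fun x => (l ^ 3)⁻¹ * σ (l⁻¹ • x)) =
        l⁻¹ * (l⁻¹ * kin σ + (- att z R 1 σ + 1 / 2 * dd σ σ + rep z R)) := by
    intro σ hσ
    obtain ⟨h1, h2⟩ := hSCA k z R lam l hl σ hσ
    refine ⟨h1, ?_⟩
    rw [h2]
    field_simp
  have hne : T.Nonempty := by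
    obtain ⟨σ, hσ⟩ := adm_exists lam hlam
    rw [hT]
    exact ⟨_, σ, hσ, rfl⟩
  have hset : {x | ∃ ϱ, Adm lam ϱ ∧ x = tf z R l ϱ} = (fun x => l⁻¹ * x) '' T := by
    ext x
    constructor
    · rintro ⟨ϱ, hϱ, rfl⟩
      obtain ⟨h1, -⟩ := hSCA k z R lam l⁻¹ (inv_pos.2 hl) ϱ hϱ
      obtain ⟨h2, h3⟩ := key _ h1
      refine ⟨l⁻¹ * kin (fun x => (l⁻¹ ^ 3)⁻¹ * ϱ (l⁻¹⁻¹ • x)) +
        (- att z R 1 (fun x => (l⁻¹ ^ 3)⁻¹ * ϱ (l⁻¹⁻¹ • x)) +
        1 / 2 * dd (fun x => (l⁻¹ ^ 3)⁻¹ * ϱ (l⁻¹⁻¹ • x)) (fun x => (l⁻¹ ^ 3)⁻¹ * ϱ (l⁻¹⁻¹ • x))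
        + rep z R), ?_, ?_⟩
      · rw [hT]
        exact ⟨_, h1, rfl⟩
      · show l⁻¹ * _ = _
        rw [← h3]
        congr 1
        funext x
        rw [inv_inv, smul_smul, mul_inv_cancel₀ hl.ne', one_smul]
        field_simp
    · rintro ⟨y, hy, rfl⟩
      rw [hT] at hy
      obtain ⟨σ, hσ, rfl⟩ := hy
      obtain ⟨h2, h3⟩ := key σ hσ
      exact ⟨_, h2, h3.symm⟩
  have hbdd : BddBelow T := by
    obtain ⟨C, hC⟩ := hBDD k z R hz lam hlam
    refine ⟨l * (rep z R / l - C), ?_⟩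
    intro x hx
    have hx' := hx
    rw [hT] at hx
    obtain ⟨σ, hσ, hxe⟩ := hx
    obtain ⟨h2, h3⟩ := key σ hσ
    have h4 := hC l hl _ h2
    rw [h3, ← hxe] at h4
    have h5 := mul_le_mul_of_nonneg_left h4 hl.le
    rwa [← mul_assoc, mul_inv_cancel₀ hl.ne', one_mul] at h5
  rw [← hT]
  refine ⟨hne, hbdd, ?_⟩
  unfold en
  rw [hset]
  have h6 : sInf ((fun x => l⁻¹ * x) '' T) = l⁻¹ * sInf T := by
    have := Real.sInf_smul_of_nonneg (inv_pos.2 hl).le T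
    rw [← Set.image_smul, smul_eq_mul] at this
    exact this
  rw [h6, ← mul_assoc, mul_inv_cancel₀ hl.ne', one_mul]

end H39.TT
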